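import Pool.Agent.Lib.MP_c95763_co.Base

/-! Contraction of one side of a cut with three edges, and gluing. -/

set_option autoImplicit false

namespace OddFour

open Finset Classical

variable {V E : Type*}

/-- contraction of the complement of `X` to the vertex `z` -/
noncomputable def con (s : E → V) (X : Finset V) (z : V) : E → V :=
  fun e => if s e ∈ X then s e else z

/-- edges with an end in `X` -/
noncomputable def touch (s t : E → V) (A : Finset E) (X : Finset V) : Finset E :=
  A.filter fun e => s e ∈ X ∨ t e ∈ X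

lemma mem_touch {s t : E → V} {A : Finset E} {X : Finset V} {e : E} :
    e ∈ touch s t A X ↔ e ∈ A ∧ (s e ∈ X ∨ t e ∈ X) := by
  unfold touch; rw [mem_filter]

lemma con_mem {s : E → V} {X S : Finset V} {z : V} (hz : z ∉ X) (hS : S ⊆ X) (e : E) :
    con s X z e ∈ S ↔ s e ∈ S := by
  unfold con
  split_ifs with h
  · exact Iff.rfl
  · exact ⟨fun h' => absurd (hS h') hz, fun h' => absurd (hS h') h⟩

lemma cr_con {s t : E → V} {X S : Finset V} {z : V} (hz : z ∉ X) (hS : S ⊆ X) (e : E) :
    cr (con s X z) (con t X z) S e ↔ cr s t S e := by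
  unfold cr
  rw [con_mem hz hS, con_mem hz hS]

lemma cn_con {s t : E → V} {X S : Finset V} {z : V} (hz : z ∉ X) (hS : S ⊆ X) (A : Finset E) :
    cn (con s X z) (con t X z) A S = cn s t A S := by
  unfold cn ci
  refine Finset.sum_congr rfl fun e _ => ?_
  rw [if_congr (cr_con hz hS e) rfl rfl]

lemma cn_touch {s t : E → V} {X S : Finset V} (hS : S ⊆ X) (A : Finset E) :
    cn s t (touch s t A X) S = cn s t A S := by
  unfold cn touch
  refine Finset.sum_filter_of_ne fun e _ h => ?_
  have h1 : cr s t S e := by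
    by_contra hc
    exact h (ci_eq_zero.2 hc)
  unfold cr at h1
  by_contra hc
  rw [not_or] at hc
  exact h1 ⟨fun h' => absurd (hS h') hc.1, fun h' => absurd (hS h') hc.2⟩

lemma con_mem_insert (s : E → V) (X : Finset V) (z : V) (e : E) : con s X z e ∈ insert z X := by
  unfold con
  split_ifs with h
  · exact mem_insert_of_mem h
  · exact mem_insert_self _ _

lemma insert_sdiff_self {X : Finset V} {z : V} (hz : z ∉ X) : insert z X \ X = {z} := by
  ext v
  simp only [mem_sdiff, mem_insert, mem_singleton]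
  constructor
  · rintro ⟨h1 | h1, h2⟩
    · exact h1
    · exact absurd h1 h2
  · rintro rfl
    exact ⟨Or.inl rfl, hz⟩

lemma cn_con_z {s t : E → V} {X : Finset V} {z : V} (hz : z ∉ X) (A : Finset E) :
    cn (con s X z) (con t X z) A {z} = cn s t A X := by
  rw [← insert_sdiff_self hz, cn_compl (fun e _ => ⟨con_mem_insert s X z e, con_mem_insert t X z e⟩),
    cn_con hz (Finset.Subset.refl _)]

variable {s t : E → V} {vs : Finset V} {es F : Finset E}

lemma hyp_con (h : Hyp s t vs es F) {X : Finset V} (hX : X ⊆ vs) (ho : Odd X.card)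
    (h3 : cn s t es X = 3) {z : V} (hzv : z ∈ vs) (hz : z ∉ X) :
    Hyp (con s X z) (con t X z) (insert z X) (touch s t es X) (touch s t F X) where
  ends := fun e _ => ⟨con_mem_insert s X z e, con_mem_insert t X z e⟩
  noloop := by
    intro e he
    rw [mem_touch] at he
    unfold con
    have hn := h.noloop e he.1
    by_cases h1 : s e ∈ X <;> by_cases h2 : t e ∈ X
    · rw [if_pos h1, if_pos h2]; exact hn
    · rw [if_pos h1, if_neg h2]
      rintro rfl; exact hz h1
    · rw [if_neg h1, if_pos h2]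
      rintro rfl; exact hz h2
    · exact absurd he.2 (by tauto)
  cubic := by
    intro v hv
    rcases mem_insert.1 hv with rfl | hv
    · rw [cn_con_z hz, cn_touch (Finset.Subset.refl _), h3]
    · rw [cn_con hz (singleton_subset_iff.2 hv), cn_touch (singleton_subset_iff.2 hv)]
      exact h.cubic v (hX hv)
  oddcut := by
    intro S hS hSo
    by_cases hzS : z ∈ S
    · have e1 : cn (con s X z) (con t X z) (touch s t es X) S =
          cn (con s X z) (con t X z) (touch s t es X) (insert z X \ S) :=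
        (cn_compl (fun e _ => ⟨con_mem_insert s X z e, con_mem_insert t X z e⟩) S).symm
      have hsub : insert z X \ S ⊆ X := by
        intro v hv
        rw [mem_sdiff, mem_insert] at hv
        rcases hv.1 with rfl | h'
        · exact absurd hzS hv.2
        · exact h'
      rw [e1, cn_con hz hsub, cn_touch hsub]
      refine h.oddcut _ (hsub.trans hX) ?_
      rw [card_sdiff_of_subset hS, card_insert_of_notMem hz]
      have hle := card_le_card hS
      rw [card_insert_of_notMem hz] at hle
      obtain ⟨a, ha⟩ := ho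
      obtain ⟨b, hb⟩ := hSo
      exact ⟨a - b, by omega⟩
    · have hsub : S ⊆ X := by
        intro v hv
        rcases mem_insert.1 (hS hv) with rfl | h'
        · exact absurd hv hzS
        · exact h'
      rw [cn_con hz hsub, cn_touch hsub]
      exact h.oddcut _ (hsub.trans hX) hSo
  sub := by
    intro e he
    rw [mem_touch] at he ⊢
    exact ⟨h.sub he.1, he.2⟩
  join := by
    intro v hv
    rcases mem_insert.1 hv with rfl | hv
    · rw [cn_con_z hz, cn_touch (Finset.Subset.refl _)]
      exact h.odd_F hX ho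
    · rw [cn_con hz (singleton_subset_iff.2 hv), cn_touch (singleton_subset_iff.2 hv)]
      exact h.join v (hX hv)
  five := by
    rintro ⟨Z, hZ, hd⟩
    apply h.five
    -- lift of a closed set
    set L : Finset V → Finset V := fun S => if z ∈ S then (S \ {z}) ∪ (vs \ X) else S with hL
    have hmem : ∀ S : Finset V, S ⊆ insert z X → ∀ v, v ∈ L S ↔
        (v ∈ X ∧ v ∈ S) ∨ (v ∈ vs \ X ∧ z ∈ S) := by
      intro S hS v
      by_cases hzS : z ∈ S
      · simp only [hL, if_pos hzS, mem_union, mem_sdiff, mem_singleton, hzS, and_true]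
        constructor
        · rintro (h1 | h1)
          · rcases mem_insert.1 (hS h1.1) with h2 | h2
            · exact absurd h2 h1.2
            · exact Or.inl ⟨h2, h1.1⟩
          · exact Or.inr h1
        · rintro (h1 | h1)
          · exact Or.inl ⟨h1.2, fun h2 => hz (h2 ▸ h1.1)⟩
          · exact Or.inr h1
      · simp only [hL, if_neg hzS, hzS, and_false, or_false]
        constructor
        · intro h1
          rcases mem_insert.1 (hS h1) with h2 | h2
          · exact absurd (h2 ▸ h1) hzS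
          · exact ⟨h2, h1⟩
        · exact fun h1 => h1.2
    have hpt : ∀ S : Finset V, S ⊆ insert z X → ∀ r : E → V, ∀ e, r e ∈ vs →
        (r e ∈ L S ↔ con r X z e ∈ S) := by
      intro S hS r e he
      rw [hmem S hS]
      unfold con
      split_ifs with h1
      · simp [h1]
      · simp [h1, he]
    refine ⟨fun i => L (Z i), fun i => ⟨?_, ?_, ?_⟩, ?_⟩
    · intro v hv
      rw [hmem _ (hZ i).1] at hv
      rcases hv with hv | hv
      · exact hX hv.1
      · exact (mem_sdiff.1 hv.1).1
    · have hodd := (hZ i).2.1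
      by_cases hzS : z ∈ Z i
      · have e1 : L (Z i) = (Z i \ {z}) ∪ (vs \ X) := by simp only [hL, if_pos hzS]
        have hdis : Disjoint (Z i \ {z}) (vs \ X) := by
          rw [disjoint_left]
          intro v h1 h2
          rw [mem_sdiff, mem_singleton] at h1
          rw [mem_sdiff] at h2
          rcases mem_insert.1 ((hZ i).1 h1.1) with h3 | h3
          · exact h1.2 h3
          · exact h2.2 h3
        change Odd (L (Z i)).card
        rw [e1, card_union_of_disjoint hdis, card_sdiff_of_subset (singleton_subset_iff.2 hzS),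
          card_sdiff_of_subset hX, card_singleton]
        have hle := card_le_card hX
        have hpos : 1 ≤ (Z i).card := card_pos.2 ⟨z, hzS⟩
        obtain ⟨a, ha⟩ := ho
        obtain ⟨b, hb⟩ := hodd
        obtain ⟨c, hc⟩ := h.even_card
        exact ⟨b + c - a - 1, by omega⟩
      · have e1 : L (Z i) = Z i := by simp only [hL, if_neg hzS]
        change Odd (L (Z i)).card
        rw [e1]
        exact hodd
    · intro g hg hc
      have hc' : cr (con s X z) (con t X z) (Z i) g := by
        unfold cr at hc ⊢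
        rw [hpt _ (hZ i).1 s g (h.ends g hg).1, hpt _ (hZ i).1 t g (h.ends g hg).2] at hc
        exact hc
      have ht : g ∈ touch s t es X := by
        rw [mem_touch]
        refine ⟨hg, ?_⟩
        by_contra hn
        rw [not_or] at hn
        unfold cr con at hc'
        rw [if_neg hn.1, if_neg hn.2] at hc'
        exact hc' Iff.rfl
      exact (mem_touch.1 ((hZ i).2.2 g ht hc')).1
    · intro i j hij
      have hdij := hd i j hij
      rw [disjoint_left] at hdij ⊢
      intro v h1 h2
      rw [hmem _ (hZ i).1] at h1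
      rw [hmem _ (hZ j).1] at h2
      rcases h1 with h1 | h1 <;> rcases h2 with h2 | h2
      · exact hdij h1.2 h2.2
      · exact (mem_sdiff.1 h2.1).2 h1.1
      · exact (mem_sdiff.1 h1.1).2 h2.1
      · exact hdij h1.2 h2.2

/-- one side of the gluing argument for the odd cuts -/
lemma side_false {X : Finset V} {z : V} (hz : z ∉ X) {M M1 : Finset E}
    (hMM1 : ∀ g ∈ M, (s g ∈ X ∨ t g ∈ X) → g ∈ M1)
    (hgood : ∀ Z ⊆ insert z X, Odd Z.card → ∃ g ∈ touch s t es X,
      cr (con s X z) (con t X z) Z g ∧ ¬ (g ∈ M1 ∧ g ∈ touch s t F X))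
    {S : Finset V} (hS : S ⊆ X) (hSo : Odd S.card)
    (h0 : cn s t (es.filter fun g => ¬ (g ∈ M ∧ g ∈ F)) S = 0) : False := by
  obtain ⟨g, hg, hc, hn⟩ := hgood S (hS.trans (subset_insert _ _)) hSo
  rw [cr_con hz hS] at hc
  rw [mem_touch] at hg
  rw [cn_eq_zero] at h0
  apply hn
  by_contra hcon
  refine h0 g ?_ hc
  rw [mem_filter]
  refine ⟨hg.1, fun h' => hcon ⟨hMM1 g h'.1 hg.2, ?_⟩⟩
  rw [mem_touch]
  exact ⟨h'.2, hg.2⟩

lemma cn_eq_one_unique {A : Finset E} {X : Finset V} (h : cn s t A X = 1) :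
    ∃ g ∈ A, cr s t X g ∧ ∀ g' ∈ A, cr s t X g' → g' = g := by
  rw [cn_eq_card, card_eq_one] at h
  obtain ⟨g, hg⟩ := h
  have h1 : g ∈ A.filter (cr s t X) := by rw [hg]; exact mem_singleton_self _
  rw [mem_filter] at h1
  refine ⟨g, h1.1, h1.2, fun g' h2 h3 => ?_⟩
  have h4 : g' ∈ A.filter (cr s t X) := mem_filter.2 ⟨h2, h3⟩
  rw [hg] at h4
  exact mem_singleton.1 h4

theorem glue (h : Hyp s t vs es F) {X : Finset V} (hX : X ⊆ vs) (ho : Odd X.card)
    (h3 : cn s t es X = 3) {z z2 : V} (hzv : z ∈ vs) (hz : z ∉ X) (hz2 : z2 ∈ X)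
    {e : E}
    (c1 : Concl (con s X z) (con t X z) (insert z X) (touch s t es X) (touch s t F X) e)
    (c2 : ∀ g ∈ touch s t es (vs \ X), Concl (con s (vs \ X) z2) (con t (vs \ X) z2)
      (insert z2 (vs \ X)) (touch s t es (vs \ X)) (touch s t F (vs \ X)) g) :
    Concl s t vs es F e := by
  set X' := vs \ X with hX'
  have hz2' : z2 ∉ X' := fun h' => (mem_sdiff.1 h').2 hz2
  obtain ⟨M1, hM1, heM1, hp1, hg1⟩ := c1
  have hM1es : M1 ⊆ es := fun g hg => (mem_touch.1 (hM1 hg)).1
  have hcross1 : cn s t M1 X = 1 := by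
    rw [← cn_con_z hz]
    exact hp1 z (mem_insert_self _ _)
  obtain ⟨g, hgM1, hgX, hguniq⟩ := cn_eq_one_unique hcross1
  have hges := hM1es hgM1
  have hcross : ∀ a ∈ es, (cr s t X a ↔ (s a ∈ X ∨ t a ∈ X) ∧ (s a ∈ X' ∨ t a ∈ X')) := by
    intro a ha
    have h1 := (h.ends a ha).1
    have h2 := (h.ends a ha).2
    unfold cr
    rw [hX']
    simp only [mem_sdiff, h1, h2, true_and]
    tauto
  have hgt : g ∈ touch s t es X' := mem_touch.2 ⟨hges, ((hcross g hges).1 hgX).2⟩
  obtain ⟨M2, hM2, hgM2, hp2, hg2⟩ := c2 g hgt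
  have hM2es : M2 ⊆ es := fun g hg => (mem_touch.1 (hM2 hg)).1
  have hcross2 : cn s t M2 X = 1 := by
    have e1 : cn s t M2 X' = 1 := by
      rw [← cn_con_z hz2']
      exact hp2 z2 (mem_insert_self _ _)
    rw [← e1, hX', cn_compl fun e he => h.ends e (hM2es he)]
  have hguniq2 : ∀ g' ∈ M2, cr s t X g' → g' = g := by
    obtain ⟨g2, hg2M, -, hu⟩ := cn_eq_one_unique hcross2
    intro g' h1 h2
    rw [hu g' h1 h2, hu g hgM2 hgX]
  have hMes : M1 ∪ M2 ⊆ es := union_subset hM1es hM2es
  have hmm1 : ∀ a ∈ M1 ∪ M2, (s a ∈ X ∨ t a ∈ X) → a ∈ M1 := by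
    intro a ha h1
    rcases mem_union.1 ha with h2 | h2
    · exact h2
    · have h4 : cr s t X a := (hcross a (hM2es h2)).2 ⟨h1, (mem_touch.1 (hM2 h2)).2⟩
      rw [hguniq2 a h2 h4]
      exact hgM1
  have hmm2 : ∀ a ∈ M1 ∪ M2, (s a ∈ X' ∨ t a ∈ X') → a ∈ M2 := by
    intro a ha h1
    rcases mem_union.1 ha with h2 | h2
    · have h4 : cr s t X a := (hcross a (hM1es h2)).2 ⟨(mem_touch.1 (hM1 h2)).2, h1⟩
      rw [hguniq a h2 h4]
      exact hgM2
    · exact h2
  have hpm : ∀ v ∈ vs, cn s t (M1 ∪ M2) {v} = 1 := by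
    intro v hv
    by_cases hvX : v ∈ X
    · have e1 : cn s t (M1 ∪ M2) {v} = cn s t M1 {v} := by
        unfold cn
        symm
        refine Finset.sum_subset subset_union_left fun a ha hna => ?_
        rw [ci_eq_zero]
        intro hc
        apply hna
        refine hmm1 a ha ?_
        unfold cr at hc
        simp only [mem_singleton] at hc
        by_cases h1 : s a = v
        · exact Or.inl (h1 ▸ hvX)
        · by_cases h2 : t a = v
          · exact Or.inr (h2 ▸ hvX)
          · exact absurd (by tauto) hc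
      rw [e1, ← cn_con hz (singleton_subset_iff.2 hvX)]
      exact hp1 v (mem_insert_of_mem hvX)
    · have hvX' : v ∈ X' := mem_sdiff.2 ⟨hv, hvX⟩
      have e1 : cn s t (M1 ∪ M2) {v} = cn s t M2 {v} := by
        unfold cn
        symm
        refine Finset.sum_subset subset_union_right fun a ha hna => ?_
        rw [ci_eq_zero]
        intro hc
        apply hna
        refine hmm2 a ha ?_
        unfold cr at hc
        simp only [mem_singleton] at hc
        by_cases h1 : s a = v
        · exact Or.inl (h1 ▸ hvX')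
        · by_cases h2 : t a = v
          · exact Or.inr (h2 ▸ hvX')
          · exact absurd (by tauto) hc
      rw [e1, ← cn_con hz2' (singleton_subset_iff.2 hvX')]
      exact hp2 v (mem_insert_of_mem hvX')
  refine ⟨M1 ∪ M2, hMes, mem_union_left _ heM1, hpm, ?_⟩
  intro Z hZ hZo
  by_contra hcon
  set R := es.filter fun g => ¬ (g ∈ M1 ∪ M2 ∧ g ∈ F) with hR
  have hRZ : cn s t R Z = 0 := by
    rw [cn_eq_zero]
    intro a ha hc
    rw [hR, mem_filter] at ha
    exact hcon ⟨a, ha.1, hc, ha.2⟩
  have hRX : cn s t R X ≤ 3 := by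
    rw [← h3]
    exact cn_mono (filter_subset _ _) X
  have hne : ∀ S ⊆ vs, Odd S.card → cn s t R S ≤ 1 → cn s t R S = 0 := fun S hS hSo hle =>
    h.ne_one hMes hpm hS hSo hle
  have f1 : ∀ S ⊆ X, Odd S.card → cn s t R S = 0 → False := fun S hS hSo h0 =>
    side_false hz hmm1 hg1 hS hSo h0
  have f2 : ∀ S ⊆ X', Odd S.card → cn s t R S = 0 → False := fun S hS hSo h0 =>
    side_false hz2' hmm2 hg2 hS hSo h0
  have hends : ∀ e ∈ R, s e ∈ vs ∧ t e ∈ vs := fun e he => h.ends e (mem_filter.1 he).1
  have k1 : (X \ Z).card + (X ∩ Z).card = X.card := card_sdiff_add_card_inter X Z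
  have k2 : (Z \ X).card + (Z ∩ X).card = Z.card := card_sdiff_add_card_inter Z X
  have k3 : (X ∪ Z).card + (X ∩ Z).card = X.card + Z.card := card_union_add_card_inter X Z
  rw [inter_comm Z X] at k2
  rcases Nat.even_or_odd (X ∩ Z).card with hev | hod
  · -- `X \ Z` and `Z \ X` are odd
    have o1 : Odd (X \ Z).card := by
      obtain ⟨a, ha⟩ := ho
      obtain ⟨b, hb⟩ := hev
      exact ⟨a - b, by omega⟩
    have o2 : Odd (Z \ X).card := by
      obtain ⟨a, ha⟩ := hZo
      obtain ⟨b, hb⟩ := hev
      exact ⟨a - b, by omega⟩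
    have hs := cn_posimod s t R X Z
    have s1 : X \ Z ⊆ X := sdiff_subset
    have s2 : Z \ X ⊆ X' := fun v hv => mem_sdiff.2 ⟨hZ (mem_sdiff.1 hv).1, (mem_sdiff.1 hv).2⟩
    rcases Nat.lt_or_ge (cn s t R (X \ Z)) 2 with hlt | hge
    · exact f1 _ s1 o1 (hne _ (s1.trans hX) o1 (by omega))
    · exact f2 _ s2 o2 (hne _ (s2.trans sdiff_subset) o2 (by omega))
  · have o2 : Odd (vs \ (X ∪ Z)).card := by
      rw [card_sdiff_of_subset (union_subset hX hZ)]
      have hle := card_le_card (union_subset hX hZ)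
      obtain ⟨a, ha⟩ := ho
      obtain ⟨b, hb⟩ := hZo
      obtain ⟨c, hc⟩ := hod
      obtain ⟨d, hd⟩ := h.even_card
      exact ⟨d + c - a - b - 1, by omega⟩
    have hs := cn_submod s t R X Z
    have s1 : X ∩ Z ⊆ X := inter_subset_left
    have s2 : vs \ (X ∪ Z) ⊆ X' := fun v hv =>
      mem_sdiff.2 ⟨(mem_sdiff.1 hv).1, fun h' => (mem_sdiff.1 hv).2 (mem_union_left _ h')⟩
    have e2 : cn s t R (vs \ (X ∪ Z)) = cn s t R (X ∪ Z) := cn_compl hends _
    rcases Nat.lt_or_ge (cn s t R (X ∩ Z)) 2 with hlt | hge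
    · exact f1 _ s1 hod (hne _ (s1.trans hX) hod (by omega))
    · exact f2 _ s2 o2 (hne _ sdiff_subset o2 (by omega))

end OddFour
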