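import Mathlib

/-!
# Simplicial acyclicity over F_2 (helper87, for the topological Hall route)

Chains of a complex on a finite set `α` are functions `Finset α → ZMod 2`; the empty face is a face
of dimension -1, so everything is reduced. `Ac Δ m` says: every cycle all of whose faces have exactly
`c` elements, `c < m`, is the boundary of a chain of faces with `c + 1` elements.
-/

set_option autoImplicit false

namespace TopHall

open Finset

variable {α : Type*} [Fintype α] [DecidableEq α]

/-- The (reduced) boundary. -/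
def bd (z : Finset α → ZMod 2) (t : Finset α) : ZMod 2 := ∑ a ∈ tᶜ, z (insert a t)

/-- `z` is a chain of faces of `Δ` with exactly `c` elements. -/
def Sup (Δ : Set (Finset α)) (c : ℕ) (z : Finset α → ZMod 2) : Prop :=
  ∀ t, z t ≠ 0 → t ∈ Δ ∧ t.card = c

/-- Acyclicity in one degree (faces with `c` elements). -/
def AcAt (Δ : Set (Finset α)) (c : ℕ) : Prop :=
  ∀ z : Finset α → ZMod 2, Sup Δ c z → bd z = 0 → ∃ w : Finset α → ZMod 2, Sup Δ (c + 1) w ∧ bd w = z

/-- Acyclicity in all degrees with fewer than `m` elements. -/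
def Ac (Δ : Set (Finset α)) (m : ℕ) : Prop := ∀ c, c < m → AcAt Δ c

def del (Δ : Set (Finset α)) (e : α) : Set (Finset α) := {t | t ∈ Δ ∧ e ∉ t}

def lk (Δ : Set (Finset α)) (e : α) : Set (Finset α) := {t | insert e t ∈ Δ ∧ e ∉ t}

theorem Ac.mono {Δ : Set (Finset α)} {m m' : ℕ} (h : Ac Δ m) (hm : m' ≤ m) : Ac Δ m' :=
  fun c hc => h c (lt_of_lt_of_le hc hm)

theorem zmod2_add_self (x : ZMod 2) : x + x = 0 := CharTwo.add_self_eq_zero x

theorem bd_add (z w : Finset α → ZMod 2) : bd (z + w) = bd z + bd w := by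
  funext t; simp [bd, sum_add_distrib]

theorem bd_sum {ι : Type*} (s : Finset ι) (z : ι → Finset α → ZMod 2) :
    bd (∑ i ∈ s, z i) = ∑ i ∈ s, bd (z i) := by
  funext t
  simp only [bd, Finset.sum_apply]
  rw [sum_comm]

theorem bd_zero : bd (0 : Finset α → ZMod 2) = 0 := by
  funext t; simp [bd]

theorem AcAt.congr {Δ Δ' : Set (Finset α)} {c : ℕ} (h : AcAt Δ c)
    (h1 : ∀ t : Finset α, t.card = c → (t ∈ Δ' → t ∈ Δ))
    (h2 : ∀ t : Finset α, t.card = c + 1 → (t ∈ Δ → t ∈ Δ')) : AcAt Δ' c := by
  intro z hz hb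
  obtain ⟨w, hw, hwb⟩ := h z (fun t ht => ⟨h1 t (hz t ht).2 (hz t ht).1, (hz t ht).2⟩) hb
  exact ⟨w, fun t ht => ⟨h2 t (hw t ht).2 (hw t ht).1, (hw t ht).2⟩, hwb⟩

/-- Boundary of `e * w`. -/
def pre (e : α) (w : Finset α → ZMod 2) (t : Finset α) : ZMod 2 := if e ∈ t then w (t.erase e) else 0

theorem bd_pre_of_mem {e : α} {w : Finset α → ZMod 2} (hw : ∀ t, e ∈ t → w t = 0) {t : Finset α}
    (ht : e ∈ t) : bd (pre e w) t = bd w (t.erase e) := by
  have h1 : bd (pre e w) t = ∑ a ∈ tᶜ, w (insert a (t.erase e)) := by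
    refine sum_congr rfl fun a ha => ?_
    have hae : a ≠ e := by rintro rfl; exact (mem_compl.1 ha) ht
    rw [pre, if_pos (mem_insert_of_mem ht), erase_insert_of_ne hae]
  have h2 : (t.erase e)ᶜ = insert e tᶜ := by
    ext a
    by_cases hae : a = e
    · subst hae; simp
    · simp [hae]
  rw [h1, bd, h2, sum_insert (by simpa using ht), hw _ (mem_insert_self _ _), zero_add]

theorem bd_pre_of_not_mem {e : α} {w : Finset α → ZMod 2} {t : Finset α}
    (ht : e ∉ t) : bd (pre e w) t = w t := by
  rw [bd, sum_eq_single e]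
  · simp [pre, erase_insert ht]
  · intro a _ hae
    have : e ∉ insert a t := by simp [ht, Ne.symm hae]
    simp [pre, this]
  · intro h; exact absurd (mem_compl.2 ht) h

/-- Meshulam's step in one degree. -/
theorem AcAt_step {Δ : Set (Finset α)} (hd : ∀ t ∈ Δ, ∀ s ⊆ t, s ∈ Δ) (e : α) {c : ℕ}
    (h0 : AcAt (del Δ e) c) (h1 : ∀ c', c = c' + 1 → AcAt (lk Δ e) c') : AcAt Δ c := by
  intro z hz hb
  set z1 : Finset α → ZMod 2 := fun t => if e ∈ t then 0 else z (insert e t) with hz1
  set z0 : Finset α → ZMod 2 := fun t => if e ∈ t then 0 else z t with hz0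
  -- boundary of z1
  have hbz1 : bd z1 = 0 := by
    funext t
    by_cases ht : e ∈ t
    · rw [bd]; exact sum_eq_zero fun a _ => by simp [hz1, ht]
    · have hc : tᶜ = insert e ((insert e t)ᶜ) := by
        ext a
        by_cases hae : a = e
        · subst hae; simp [ht]
        · simp [hae]
      have this : ∑ a ∈ (insert e t)ᶜ, z (insert a (insert e t)) = 0 := congrFun hb (insert e t)
      rw [bd, hc, sum_insert (by simp)]
      have e1 : z1 (insert e t) = 0 := by simp [hz1]
      rw [e1, zero_add]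
      refine Eq.trans ?_ this
      refine sum_congr rfl fun a ha => ?_
      have hae : a ≠ e := by rintro rfl; exact (mem_compl.1 ha) (mem_insert_self _ _)
      have : e ∉ insert a t := by simp [ht, Ne.symm hae]
      simp only [hz1, this, if_false]
      rw [Finset.insert_comm]
  have hbz0 : bd z0 = z1 := by
    funext t
    by_cases ht : e ∈ t
    · have : z1 t = 0 := by simp [hz1, ht]
      rw [this, bd]; exact sum_eq_zero fun a _ => by simp [hz0, ht]
    · have hc : tᶜ = insert e ((insert e t)ᶜ) := by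
        ext a
        by_cases hae : a = e
        · subst hae; simp [ht]
        · simp [hae]
      have h2 := congrFun hb t
      rw [bd, hc, sum_insert (by simp)] at h2
      rw [bd, hc, sum_insert (by simp)]
      have e1 : z0 (insert e t) = 0 := by simp [hz0]
      rw [e1, zero_add]
      have e2 : ∑ a ∈ (insert e t)ᶜ, z0 (insert a t) = ∑ a ∈ (insert e t)ᶜ, z (insert a t) := by
        refine sum_congr rfl fun a ha => ?_
        have hae : a ≠ e := by rintro rfl; exact (mem_compl.1 ha) (mem_insert_self _ _)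
        have : e ∉ insert a t := by simp [ht, Ne.symm hae]
        simp [hz0, this]
      rw [e2]
      have e3 : z1 t = z (insert e t) := by simp [hz1, ht]
      rw [e3]
      have h3 : z (insert e t) + ∑ a ∈ (insert e t)ᶜ, z (insert a t) = 0 := h2
      calc ∑ a ∈ (insert e t)ᶜ, z (insert a t)
          = z (insert e t) + z (insert e t) + ∑ a ∈ (insert e t)ᶜ, z (insert a t) := by
            rw [zmod2_add_self, zero_add]
        _ = z (insert e t) + (z (insert e t) + ∑ a ∈ (insert e t)ᶜ, z (insert a t)) := by ring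
        _ = z (insert e t) := by rw [h3, add_zero]
  have hz0s : Sup (del Δ e) c z0 := by
    intro t ht
    by_cases he : e ∈ t
    · simp [hz0, he] at ht
    · have : z t ≠ 0 := by simpa [hz0, he] using ht
      exact ⟨⟨(hz t this).1, he⟩, (hz t this).2⟩
  -- a filling of z1
  obtain ⟨w1, hw1s, hw1b⟩ : ∃ w1 : Finset α → ZMod 2, Sup (lk Δ e) c w1 ∧ bd w1 = z1 := by
    rcases Nat.eq_zero_or_pos c with rfl | hc
    · refine ⟨0, fun t ht => absurd rfl ht, ?_⟩
      rw [bd_zero]
      funext t
      by_contra hne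
      by_cases he : e ∈ t
      · exact hne (by simp [hz1, he])
      · have : z (insert e t) ≠ 0 := fun h => hne (by simp [hz1, he, h])
        have := (hz _ this).2
        simp [card_insert_of_notMem he] at this
    · obtain ⟨c', rfl⟩ : ∃ c', c = c' + 1 := ⟨c - 1, by omega⟩
      refine h1 c' rfl z1 ?_ hbz1
      intro t ht
      by_cases he : e ∈ t
      · simp [hz1, he] at ht
      · have h4 : z (insert e t) ≠ 0 := by simpa [hz1, he] using ht
        have h5 := hz _ h4
        rw [card_insert_of_notMem he] at h5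
        exact ⟨⟨h5.1, he⟩, by omega⟩
  have hw1e : ∀ t, e ∈ t → w1 t = 0 := fun t ht => by
    by_contra hne; exact (hw1s t hne).1.2 ht
  obtain ⟨w0, hw0s, hw0b⟩ := h0 (z0 + w1) (by
      intro t ht
      by_cases h : z0 t = 0
      · have : w1 t ≠ 0 := by
          intro h'; exact ht (by simp [h, h'])
        have h6 := hw1s t this
        exact ⟨⟨hd _ h6.1.1 _ (subset_insert _ _), h6.1.2⟩, h6.2⟩
      · exact hz0s t h) (by
      rw [bd_add, hbz0, hw1b]; funext t; exact zmod2_add_self _)
  refine ⟨w0 + pre e w1, ?_, ?_⟩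
  · intro t ht
    by_cases h : w0 t = 0
    · have h7 : pre e w1 t ≠ 0 := by intro h'; exact ht (by simp [h, h'])
      have he : e ∈ t := by by_contra he; exact h7 (by simp [pre, he])
      have h8 : w1 (t.erase e) ≠ 0 := by simpa [pre, he] using h7
      have h9 := hw1s _ h8
      refine ⟨?_, ?_⟩
      · have := h9.1.1; rwa [insert_erase he] at this
      · have := h9.2; rw [card_erase_of_mem he] at this
        have : 0 < t.card := card_pos.2 ⟨e, he⟩
        omega
    · exact ⟨(hw0s t h).1.1, (hw0s t h).2⟩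
  · rw [bd_add, hw0b]
    funext t
    by_cases he : e ∈ t
    · have e1 : z0 t = 0 := by simp [hz0, he]
      have e2 : z1 (t.erase e) = z t := by simp [hz1, insert_erase he]
      simp only [Pi.add_apply, e1, hw1e t he, bd_pre_of_mem hw1e he, hw1b, e2, zero_add]
    · have e1 : z0 t = z t := by simp [hz0, he]
      simp only [Pi.add_apply, e1, bd_pre_of_not_mem he]
      rw [add_assoc, zmod2_add_self, add_zero]

theorem Ac_step {Δ : Set (Finset α)} (hd : ∀ t ∈ Δ, ∀ s ⊆ t, s ∈ Δ) (e : α) {m : ℕ}
    (h0 : Ac (del Δ e) m) (h1 : Ac (lk Δ e) (m - 1)) : Ac Δ m := by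
  intro c hc
  exact AcAt_step hd e (h0 c hc) fun c' hc' => h1 c' (by omega)

/-- A cone is acyclic in every degree. -/
theorem Ac_cone {Δ : Set (Finset α)} (e : α) (h : ∀ t ∈ Δ, insert e t ∈ Δ) (m : ℕ) : Ac Δ m := by
  intro c _ z hz hb
  set z0 : Finset α → ZMod 2 := fun t => if e ∈ t then 0 else z t with hz0
  have hz0e : ∀ t, e ∈ t → z0 t = 0 := fun t ht => by simp [hz0, ht]
  refine ⟨pre e z0, ?_, ?_⟩
  · intro t ht
    have he : e ∈ t := by by_contra he; exact ht (by simp [pre, he])
    have h8 : z (t.erase e) ≠ 0 := by simpa [pre, he, hz0] using ht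
    have h9 := hz _ h8
    refine ⟨?_, ?_⟩
    · have := h _ h9.1; rwa [insert_erase he] at this
    · have := h9.2; rw [card_erase_of_mem he] at this
      have : 0 < t.card := card_pos.2 ⟨e, he⟩
      omega
  · funext t
    by_cases he : e ∈ t
    · rw [bd_pre_of_mem hz0e he]
      -- bd z0 (t.erase e) = z t because bd z (t.erase e) = 0
      have hc : (t.erase e)ᶜ = insert e tᶜ := by
        ext a
        by_cases hae : a = e
        · subst hae; simp
        · simp [hae]
      have h2 := congrFun hb (t.erase e)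
      rw [bd, hc, sum_insert (by simpa using he)] at h2
      rw [bd, hc, sum_insert (by simpa using he)]
      rw [hz0e _ (mem_insert_self _ _), zero_add]
      rw [insert_erase he] at h2
      have e2 : ∑ a ∈ tᶜ, z0 (insert a (t.erase e)) = ∑ a ∈ tᶜ, z (insert a (t.erase e)) := by
        refine sum_congr rfl fun a ha => ?_
        have hae : a ≠ e := by rintro rfl; exact (mem_compl.1 ha) he
        have : e ∉ insert a (t.erase e) := by simp [Ne.symm hae]
        simp [hz0, this]
      rw [e2]
      calc ∑ a ∈ tᶜ, z (insert a (t.erase e))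
          = z t + z t + ∑ a ∈ tᶜ, z (insert a (t.erase e)) := by rw [zmod2_add_self, zero_add]
        _ = z t + (z t + ∑ a ∈ tᶜ, z (insert a (t.erase e))) := by ring
        _ = z t := by
            have h3 : z t + ∑ a ∈ tᶜ, z (insert a (t.erase e)) = 0 := h2
            rw [h3, add_zero]
    · rw [bd_pre_of_not_mem he]; simp [hz0, he]

/-- The double boundary vanishes, in the form in which it is used. -/
theorem sum_erase_erase {β M : Type*} [DecidableEq β] [AddCommMonoid M] (hM : ∀ x : M, x + x = 0)
    (c : Finset β) (φ : Finset β → M) :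
    ∑ a ∈ c, ∑ b ∈ c.erase a, φ ((c.erase a).erase b) = 0 := by
  rw [Finset.sum_sigma']
  refine Finset.sum_involution (fun x _ => ⟨x.2, x.1⟩) ?_ ?_ ?_ ?_
  · rintro ⟨a, b⟩ _
    simp only
    rw [Finset.erase_right_comm]
    exact hM _
  · rintro ⟨a, b⟩ h _
    simp only [mem_sigma, mem_erase] at h
    intro h'
    simp only [Sigma.mk.injEq, heq_eq_eq] at h'
    exact h.2.1 h'.1
  · rintro ⟨a, b⟩ h
    simp only [mem_sigma, mem_erase] at h ⊢
    exact ⟨h.2.2, Ne.symm h.2.1, h.1⟩
  · rintro ⟨a, b⟩ _
    rfl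

end TopHall
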