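import Pool.Agent.Lib.MP_c95763_co.TopLef

/-!
# Topological Hall theorem for spanning connected faces (helper87, after helper85 and Aharoni-Berger)

`Δ` is a simplicial complex on the edge set `α` of a multigraph with vertex set `V` and end maps
`sf tf : α → V`. If for every equivalence relation `s ≠ ⊤` on `V` the complex of the faces of `Δ` all of
whose edges join different blocks is acyclic in all degrees with fewer than `(number of blocks) - 1`
elements, then some face of `Δ` is spanning and connected.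
-/

set_option autoImplicit false

namespace TopHall

open Finset

variable {V : Type*} [Finite V]

theorem card_quot_lt {s t : Setoid V} (h : s < t) :
    Nat.card (Quotient t) < Nat.card (Quotient s) := by
  classical
  have : Fintype (Quotient s) := Fintype.ofFinite _
  have : Fintype (Quotient t) := Fintype.ofFinite _
  rw [Nat.card_eq_fintype_card, Nat.card_eq_fintype_card]
  have hle : ∀ a b, s a b → t a b := fun a b hab => h.le hab
  let φ : Quotient s → Quotient t := Quotient.map' id hle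
  refine Fintype.card_lt_of_surjective_not_injective φ ?_ ?_
  · intro q
    induction q using Quotient.inductionOn with
    | h a => exact ⟨Quotient.mk s a, rfl⟩
  · intro hinj
    apply h.not_ge
    intro a b hab
    have h1 : φ (Quotient.mk s a) = φ (Quotient.mk s b) := by
      show Quotient.mk t a = Quotient.mk t b
      exact Quotient.sound hab
    exact Quotient.exact (hinj h1)

theorem one_lt_card_quot {s : Setoid V} (h : s ≠ ⊤) : 2 ≤ Nat.card (Quotient s) := by
  by_contra hlt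
  apply h
  have hsub : Subsingleton (Quotient s) := by
    have : Finite (Quotient s) := inferInstance
    rw [← Finite.card_le_one_iff_subsingleton]
    omega
  rw [eq_top_iff]
  intro a b _
  exact Quotient.exact (Subsingleton.elim (Quotient.mk s a) (Quotient.mk s b))

variable {α : Type*}

/-- The partition into the connected components of the edge set `S`. -/
def gen (sf tf : α → V) (S : Set α) : Setoid V := sInf {s | ∀ e ∈ S, s (sf e) (tf e)}

omit [Finite V] in
theorem gen_le {sf tf : α → V} {S : Set α} {s : Setoid V} :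
    gen sf tf S ≤ s ↔ ∀ e ∈ S, s (sf e) (tf e) := by
  constructor
  · intro h e he
    apply h
    intro s' hs'
    exact hs' e he
  · intro h
    exact sInf_le h

omit [Finite V] in
theorem gen_rel {sf tf : α → V} {S : Set α} {e : α} (he : e ∈ S) : gen sf tf S (sf e) (tf e) :=
  gen_le.1 le_rfl e he

omit [Finite V] in
theorem gen_mono {sf tf : α → V} {S T : Set α} (h : S ⊆ T) : gen sf tf S ≤ gen sf tf T :=
  gen_le.2 fun _ he => gen_rel (h he)

abbrev Prt (V : Type*) := {s : Setoid V // s ≠ ⊤}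

instance : Finite (Setoid V) :=
  Finite.of_injective (fun s : Setoid V => fun a b => s a b)
    (fun s t h => Setoid.ext fun a b => by rw [show s a b = t a b from congrFun (congrFun h a) b])

/-- The length of a chain of partitions. -/
theorem card_chain_le [DecidableEq (Prt V)] {c : Finset (Prt V)} (hc : IsCh c) {x : Prt V} (_hx : x ∈ c)
    (hmin : ∀ y ∈ c, x ≤ y) : c.card ≤ Nat.card (Quotient x.1) - 1 := by
  have hinj : Set.InjOn (fun y : Prt V => Nat.card (Quotient y.1)) (c : Set (Prt V)) := by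
    intro y hy z hz hyz
    by_contra hne
    rcases hc y hy z hz with h | h
    · exact (card_quot_lt (lt_of_le_of_ne h (fun h' => hne (Subtype.ext h')) : y.1 < z.1)).ne' hyz
    · exact (card_quot_lt (lt_of_le_of_ne h (fun h' => hne (Subtype.ext h'.symm)) : z.1 < y.1)).ne hyz
  have hsub : c.image (fun y : Prt V => Nat.card (Quotient y.1)) ⊆ Icc 2 (Nat.card (Quotient x.1)) := by
    intro n hn
    obtain ⟨y, hy, rfl⟩ := mem_image.1 hn
    rw [mem_Icc]
    refine ⟨one_lt_card_quot y.2, ?_⟩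
    rcases eq_or_ne x y with h | h
    · rw [h]
    · exact (card_quot_lt (lt_of_le_of_ne (hmin y hy) (fun h' => h (Subtype.ext h')) : x.1 < y.1)).le
  have h1 := card_le_card hsub
  rw [card_image_of_injOn hinj, Nat.card_Icc] at h1
  omega

theorem exists_min_of_isCh {P : Type*} [PartialOrder P] {c : Finset P} (hc : IsCh c) (hne : c.Nonempty) :
    ∃ x ∈ c, ∀ y ∈ c, x ≤ y := by
  obtain ⟨x, hx⟩ := c.exists_minimal hne
  refine ⟨x, hx.1, fun y hy => ?_⟩
  rcases hc x hx.1 y hy with h | h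
  · exact h
  · exact hx.2 hy h

variable [Fintype α] [DecidableEq α]

/-- The general form: an antitone family of subcomplexes `Ψ s` of `Δ`. -/
theorem hall_general (sf tf : α → V) {Δ : Set (Finset α)} (hd : ∀ t ∈ Δ, ∀ s ⊆ t, s ∈ Δ)
    (h0 : ∅ ∈ Δ)
    (Ψ : Setoid V → Set (Finset α)) (hsub : ∀ s, s ≠ ⊤ → Ψ s ⊆ Δ)
    (hdown : ∀ s, s ≠ ⊤ → ∀ t ∈ Ψ s, ∀ t' ⊆ t, t' ∈ Ψ s)
    (hemp : ∀ s, s ≠ ⊤ → ∅ ∈ Ψ s)
    (hanti : ∀ s s', s ≤ s' → s' ≠ ⊤ → Ψ s' ⊆ Ψ s)
    (hac : ∀ s, s ≠ ⊤ → Ac (Ψ s) (Nat.card (Quotient s) - 1))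
    (hcross : ∀ s, s ≠ ⊤ → ∀ e, {e} ∈ Ψ s → ¬ s (sf e) (tf e)) :
    ∃ S ∈ Δ, gen sf tf (S : Set α) = ⊤ := by
  classical
  by_contra hcon
  push Not at hcon
  have hbt : (⊥ : Setoid V) ≠ ⊤ := by
    intro h
    refine hcon ∅ h0 (top_le_iff.1 ?_)
    rw [← h]; exact bot_le
  have : Fintype (Prt V) := Fintype.ofFinite _
  let : OrderBot (Prt V) := { bot := ⟨⊥, hbt⟩, bot_le := fun s => (bot_le : (⊥ : Setoid V) ≤ s.1) }
  let p : Finset α → Prt V := fun S => if h : gen sf tf (S : Set α) ≠ ⊤ then ⟨gen sf tf (S : Set α), h⟩ else ⊥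
  have hpΔ : ∀ S ∈ Δ, (p S).1 = gen sf tf (S : Set α) := by
    intro S hS
    simp only [p, dif_pos (hcon S hS)]
  have hp : ∀ S T : Finset α, S ⊆ T → T ∈ Δ → p S ≤ p T := by
    intro S T hST hT
    show (p S).1 ≤ (p T).1
    rw [hpΔ S (hd T hT S hST), hpΔ T hT]
    exact gen_mono (by exact_mod_cast hST)
  let Φ : Finset (Prt V) → Set (Finset α) := fun c => {S | S = ∅ ∨ ∃ x ∈ c, S ∈ Ψ x.1}
  have hΦmin : ∀ c : Finset (Prt V), ∀ x ∈ c, (∀ y ∈ c, x ≤ y) → ∀ S, S ∈ Φ c ↔ S ∈ Ψ x.1 := by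
    intro c x hx hmin S
    constructor
    · rintro (rfl | ⟨y, hy, hS⟩)
      · exact hemp x.1 x.2
      · exact hanti x.1 y.1 (hmin y hy) y.2 hS
    · intro hS; exact Or.inr ⟨x, hx, hS⟩
  have hΦ : Carrier Δ Φ := by
    refine ⟨?_, ?_, ?_, ?_, ?_⟩
    · rintro c S (rfl | ⟨x, _, hS⟩)
      · exact h0
      · exact hsub x.1 x.2 hS
    · rintro c S (rfl | ⟨x, hx, hS⟩) S' hS'
      · exact Or.inl (subset_empty.1 hS')
      · exact Or.inr ⟨x, hx, hdown x.1 x.2 S hS S' hS'⟩
    · intro c; exact Or.inl rfl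
    · rintro c d _ hcd S (rfl | ⟨x, hx, hS⟩)
      · exact Or.inl rfl
      · exact Or.inr ⟨x, hcd hx, hS⟩
    · intro c hc hne
      obtain ⟨x, hx, hmin⟩ := exists_min_of_isCh hc hne
      have hlen := card_chain_le hc hx hmin
      have hpos := card_pos.2 hne
      have h1 : AcAt (Ψ x.1) (c.card - 1) := hac x.1 x.2 _ (by omega)
      exact h1.congr (fun t _ ht => (hΦmin c x hx hmin t).1 ht) (fun t _ ht => (hΦmin c x hx hmin t).2 ht)
  refine lefschetz hd hp hΦ ?_
  rintro c _ x hx hmin e he ⟨S', hS', heS', hpe⟩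
  have h1 : ({e} : Finset α) ∈ Ψ x.1 := (hΦmin c x hx hmin _).1 he
  have h2 := hpΔ S' hS'
  rw [hpe] at h2
  apply hcross x.1 x.2 e h1
  rw [h2]
  exact gen_rel (by exact_mod_cast heS')

/-- The faces of `Δ` which only use edges between different blocks of `s`. -/
def crossing (sf tf : α → V) (Δ : Set (Finset α)) (s : Setoid V) : Set (Finset α) :=
  {S | S ∈ Δ ∧ ∀ e ∈ S, ¬ s (sf e) (tf e)}

/-- Topological Hall theorem for the graphic matroid (with connected blocks only). -/
theorem hall (sf tf : α → V) {Δ : Set (Finset α)} (hd : ∀ t ∈ Δ, ∀ s ⊆ t, s ∈ Δ) (h0 : ∅ ∈ Δ)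
    (hac : ∀ s : Setoid V, s ≠ ⊤ → gen sf tf {e | s (sf e) (tf e)} = s →
      Ac (crossing sf tf Δ s) (Nat.card (Quotient s) - 1)) :
    ∃ S ∈ Δ, gen sf tf (S : Set α) = ⊤ := by
  refine hall_general sf tf hd h0 (crossing sf tf Δ) (fun s _ S hS => hS.1) ?_ ?_ ?_ ?_ ?_
  · intro s _ t ht t' ht'
    exact ⟨hd t ht.1 t' ht', fun e he => ht.2 e (ht' he)⟩
  · intro s _
    exact ⟨h0, fun e he => absurd he (notMem_empty _)⟩
  · intro s s' hss _ S hS
    exact ⟨hS.1, fun e he h => hS.2 e he (hss h)⟩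
  · intro s hs
    set s' := gen sf tf {e | s (sf e) (tf e)} with hs'
    have hle : s' ≤ s := gen_le.2 fun e he => he
    have hs't : s' ≠ ⊤ := fun h => hs (top_le_iff.1 (h ▸ hle))
    have hrel : ∀ e, s' (sf e) (tf e) ↔ s (sf e) (tf e) :=
      fun e => ⟨fun h => hle h, fun h => gen_rel (S := {e | s (sf e) (tf e)}) h⟩
    have hgen : gen sf tf {e | s' (sf e) (tf e)} = s' := by
      rw [hs']
      congr 1
      ext e
      exact hrel e
    have hcr : crossing sf tf Δ s' = crossing sf tf Δ s := by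
      ext S
      constructor
      · rintro ⟨h1, h2⟩; exact ⟨h1, fun e he h => h2 e he ((hrel e).2 h)⟩
      · rintro ⟨h1, h2⟩; exact ⟨h1, fun e he h => h2 e he ((hrel e).1 h)⟩
    have h1 := hac s' hs't hgen
    rw [hcr] at h1
    refine h1.mono ?_
    rcases eq_or_lt_of_le hle with h | h
    · rw [h]
    · have := card_quot_lt h
      omega
  · intro s _ e he
    exact he.2 e (mem_singleton_self e)

/-! ## Closed sets only, and the rooted version (helper97) -/

section closed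

variable {Q : Type*} [PartialOrder Q] [Finite Q]

/-- `R` is monotone on the faces of `Δ`; only chains of VALUES of `R` on faces have to be carried. The carrier
is `Δ` restricted to a set `U c` of vertices which is monotone in the chain `c`. -/
theorem closed_hall {Δ : Set (Finset α)} (hd : ∀ t ∈ Δ, ∀ s ⊆ t, s ∈ Δ) (h0 : ∅ ∈ Δ)
    (R : Finset α → Q) (hR : ∀ S T : Finset α, S ⊆ T → T ∈ Δ → R S ≤ R T)
    (U : Set Q → Set α) (hU : ∀ c d : Set Q, c ⊆ d → U c ⊆ U d)
    (hac : ∀ c : Finset Q, c.Nonempty → IsCh c → (∀ x ∈ c, ∃ S ∈ Δ, R S = x) →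
      AcAt {S | S ∈ Δ ∧ ∀ e ∈ S, e ∈ U (c : Set Q)} (c.card - 1))
    (hne : ∀ c : Finset Q, c.Nonempty → IsCh c → ∀ e ∈ U (c : Set Q),
      ¬ ∀ x ∈ c, ∃ S ∈ Δ, e ∈ S ∧ R S = x) : False := by
  classical
  let P := {q : Q // ∃ S ∈ Δ, R S = q}
  have : Fintype P := Fintype.ofFinite _
  let bot : P := ⟨R ∅, ∅, h0, rfl⟩
  let _ : OrderBot P := { bot := bot, bot_le := by
                            rintro ⟨q, S, hS, rfl⟩
                            exact hR ∅ S (empty_subset _) hS }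
  let p : Finset α → P := fun S => if h : S ∈ Δ then ⟨R S, S, h, rfl⟩ else bot
  have hpΔ : ∀ S ∈ Δ, (p S).1 = R S := by
    intro S hS
    simp only [p, dif_pos hS]
  let im : Finset P → Finset Q := fun c => c.map (Function.Embedding.subtype _)
  let Φ : Finset P → Set (Finset α) := fun c => {S | S ∈ Δ ∧ ∀ e ∈ S, e ∈ U ((im c : Finset Q) : Set Q)}
  have him : ∀ c : Finset P, ∀ x, x ∈ im c ↔ ∃ y ∈ c, y.1 = x := by
    intro c x
    simp only [im, Finset.mem_map, Function.Embedding.coe_subtype]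
    exact Iff.rfl
  have hch : ∀ c : Finset P, IsCh c → IsCh (im c) := by
    intro c hc x hx y hy
    obtain ⟨x', hx', rfl⟩ := (him c x).1 hx
    obtain ⟨y', hy', rfl⟩ := (him c y).1 hy
    exact hc x' hx' y' hy'
  have hne' : ∀ c : Finset P, c.Nonempty → (im c).Nonempty := by
    rintro c ⟨x, hx⟩
    exact ⟨x.1, (him c _).2 ⟨x, hx, rfl⟩⟩
  refine lefschetz' (p := p) (Φ := Φ) hd ?_ ⟨?_, ?_, ?_, ?_, ?_⟩ ?_
  · intro S T hST hT
    show (p S).1 ≤ (p T).1
    rw [hpΔ S (hd T hT S hST), hpΔ T hT]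
    exact hR S T hST hT
  · intro c S hS; exact hS.1
  · intro c S hS S' hS'; exact ⟨hd S hS.1 S' hS', fun e he => hS.2 e (hS' he)⟩
  · intro c; exact ⟨h0, fun e he => absurd he (notMem_empty _)⟩
  · intro c d _ hcd S hS
    refine ⟨hS.1, fun e he => hU _ _ ?_ (hS.2 e he)⟩
    intro x hx
    obtain ⟨y, hy, rfl⟩ := (him c x).1 hx
    exact (him d _).2 ⟨y, hcd hy, rfl⟩
  · intro c hc hcn
    have h1 := hac (im c) (hne' c hcn) (hch c hc) (by
      intro x hx
      obtain ⟨y, _, rfl⟩ := (him c x).1 hx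
      exact y.2)
    rwa [card_map] at h1
  · intro c hc hcn S hS _ e he h
    refine hne (im c) (hne' c hcn) (hch c hc) e (hS.2 e he) ?_
    intro x hx
    obtain ⟨y, hy, rfl⟩ := (him c x).1 hx
    obtain ⟨S', h1, h2, h3⟩ := h y hy
    have hS'Δ := hd S hS.1 S' h1
    exact ⟨S', hS'Δ, h2, by rw [← hpΔ S' hS'Δ, h3]⟩

end closed

section rooted

/-- The edges leaving `X`. -/
def cut (sf tf : α → V) (X : Set V) : Set α := {e | ¬ (sf e ∈ X ↔ tf e ∈ X)}

/-- Rooted version: `R S` is a set of vertices, monotone in the face `S`, no edge of `S` leaves `R S`. If for every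
chain `c` of values of `R` the complex of faces consisting of edges which leave some member of `c` is acyclic in
the degree of faces with `|c| - 1` elements, we have a contradiction. -/
theorem rooted_hall (sf tf : α → V) {Δ : Set (Finset α)} (hd : ∀ t ∈ Δ, ∀ s ⊆ t, s ∈ Δ) (h0 : ∅ ∈ Δ)
    (R : Finset α → Set V) (hR : ∀ S T : Finset α, S ⊆ T → T ∈ Δ → R S ⊆ R T)
    (hcut : ∀ S ∈ Δ, ∀ e ∈ S, e ∉ cut sf tf (R S))
    (hac : ∀ c : Finset (Set V), c.Nonempty → IsCh c → (∀ X ∈ c, ∃ S ∈ Δ, R S = X) →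
      AcAt {S | S ∈ Δ ∧ ∀ e ∈ S, ∃ X ∈ c, e ∈ cut sf tf X} (c.card - 1)) : False := by
  refine closed_hall hd h0 R hR (fun c => {e | ∃ X ∈ c, e ∈ cut sf tf X}) ?_ ?_ ?_
  · rintro c d hcd e ⟨X, hX, he⟩
    exact ⟨X, hcd hX, he⟩
  · intro c hcn hc hcl
    exact hac c hcn hc hcl
  · rintro c hcn hc e ⟨X, hX, he⟩ h
    obtain ⟨S, hS, heS, rfl⟩ := h X hX
    exact hcut S hS e heS he

end rooted

end TopHall
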