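import Pool.Agent.Lib.MP_c95763_co.TopAc

/-!
# The Lefschetz argument over F_2 (helper87)

`P` is a finite partial order with a least element, `Δ` a simplicial complex on `α`, `p : Finset α → P`
monotone on the faces of `Δ`, and `Φ` an acyclic carrier from the chains of `P` to `Δ`. If for no chain `c`
a vertex `e` of `Φ c` satisfies `p {e} = min c`, we get a contradiction: the composite `g ∘ f` of the
two chain maps has trace `1`, but the chain complex of `P` is contractible.
-/

set_option autoImplicit false

namespace TopHall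

open Finset

section basic

variable {β : Type*} [Fintype β] [DecidableEq β]

def delta0 (t : Finset β) : ZMod 2 := if t = ∅ then 1 else 0

theorem bd_delta0 : bd (delta0 : Finset β → ZMod 2) = 0 := by
  funext t
  rw [bd]
  exact sum_eq_zero fun a _ => by simp [delta0]

theorem swap_sum {R : Type*} [AddCommMonoid R] (φ : Finset β → Finset β → R) :
    ∑ S : Finset β, ∑ e ∈ S, φ S (S.erase e) = ∑ S : Finset β, ∑ e ∈ Sᶜ, φ (insert e S) S := by
  rw [Finset.sum_sigma', Finset.sum_sigma']
  refine Finset.sum_bij' (fun x _ => ⟨x.1.erase x.2, x.2⟩) (fun x _ => ⟨insert x.2 x.1, x.2⟩) ?_ ?_ ?_ ?_ ?_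
  · rintro ⟨S, e⟩ h
    simp
  · rintro ⟨S, e⟩ h
    simp
  · rintro ⟨S, e⟩ h
    simp only [mem_sigma, mem_univ, true_and] at h
    simp [insert_erase h]
  · rintro ⟨S, e⟩ h
    simp only [mem_sigma, mem_univ, true_and, mem_compl] at h
    simp [erase_insert h]
  · rintro ⟨S, e⟩ h
    simp only [mem_sigma, mem_univ, true_and] at h
    simp [insert_erase h]

end basic

section cone

variable {P : Type*} [Fintype P] [DecidableEq P] [PartialOrder P]

open Classical in
noncomputable def ap (π : P) (G : Finset P → ZMod 2) (c : Finset P) : ZMod 2 :=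
  if π ∈ c ∧ ∀ x ∈ c, x ≤ π then G (c.erase π) else 0

theorem ap_zero (π : P) : ap π 0 = 0 := by
  funext c; simp [ap]

theorem bd_ap (π : P) (G : Finset P → ZMod 2) (hG : ∀ c, G c ≠ 0 → ∀ x ∈ c, x ≤ π) :
    bd (ap π G) = G + ap π (bd G) := by
  funext c
  rw [Pi.add_apply]
  by_cases hπ : π ∈ c
  · by_cases hall : ∀ x ∈ c, x ≤ π
    · have h1 : ap π (bd G) c = bd G (c.erase π) := by rw [ap, if_pos ⟨hπ, hall⟩]
      have h2 : bd (ap π G) c = ∑ a ∈ cᶜ, G (insert a (c.erase π)) := by
        refine sum_congr rfl fun a ha => ?_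
        have hae : a ≠ π := by rintro rfl; exact (mem_compl.1 ha) hπ
        by_cases haπ : a ≤ π
        · have hall' : ∀ x ∈ insert a c, x ≤ π := by
            intro x hx
            rcases mem_insert.1 hx with h | h
            · rw [h]; exact haπ
            · exact hall x h
          rw [ap, if_pos ⟨mem_insert_of_mem hπ, hall'⟩, erase_insert_of_ne hae]
        · rw [ap, if_neg (fun h => haπ (h.2 a (mem_insert_self _ _)))]
          by_contra hne
          exact haπ (hG _ (Ne.symm hne) a (mem_insert_self _ _))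
      have h3 : (c.erase π)ᶜ = insert π cᶜ := by
        ext a
        by_cases hae : a = π
        · subst hae; simp
        · simp [hae]
      rw [h1, h2, bd, h3, sum_insert (by simpa using hπ), insert_erase hπ, ← add_assoc,
        zmod2_add_self, zero_add]
    · have h1 : ap π (bd G) c = 0 := by rw [ap, if_neg (fun h => hall h.2)]
      have h2 : G c = 0 := by by_contra hne; exact hall (hG _ hne)
      have h3 : bd (ap π G) c = 0 := by
        rw [bd]
        refine sum_eq_zero fun a _ => ?_
        rw [ap, if_neg (fun h => hall fun x hx => h.2 x (mem_insert_of_mem hx))]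
      rw [h1, h2, h3, add_zero]
  · have h1 : ap π (bd G) c = 0 := by rw [ap, if_neg (fun h => hπ h.1)]
    rw [h1, add_zero, bd, sum_eq_single π]
    · by_cases hall : ∀ x ∈ c, x ≤ π
      · have hall' : ∀ x ∈ insert π c, x ≤ π := by
          intro x hx
          rcases mem_insert.1 hx with h | h
          · exact h.le
          · exact hall x h
        rw [ap, if_pos ⟨mem_insert_self _ _, hall'⟩, erase_insert hπ]
      · rw [ap, if_neg (fun h => hall fun x hx => h.2 x (mem_insert_of_mem hx))]
        by_contra hne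
        exact hall (hG _ (Ne.symm hne))
    · intro a _ hae
      have : π ∉ insert a c := by simp [hπ, Ne.symm hae]
      rw [ap, if_neg (fun h => this h.1)]
    · intro h; exact absurd (mem_compl.2 hπ) h

end cone

section chains

variable {α : Type*} [Fintype α] [DecidableEq α]
variable {P : Type*} [Fintype P] [DecidableEq P] [PartialOrder P]

/-- `c` is a chain. -/
def IsCh (c : Finset P) : Prop := ∀ x ∈ c, ∀ y ∈ c, x ≤ y ∨ y ≤ x

omit [Fintype P] [DecidableEq P] in
theorem IsCh.mono {c d : Finset P} (h : IsCh c) (hd : d ⊆ c) : IsCh d :=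
  fun x hx y hy => h x (hd hx) y (hd hy)

/-- An acyclic carrier. -/
structure Carrier (Δ : Set (Finset α)) (Φ : Finset P → Set (Finset α)) : Prop where
  sub : ∀ c, Φ c ⊆ Δ
  down : ∀ c, ∀ t ∈ Φ c, ∀ s ⊆ t, s ∈ Φ c
  emp : ∀ c, ∅ ∈ Φ c
  mono : ∀ c d, IsCh d → c ⊆ d → Φ c ⊆ Φ d
  ac : ∀ c, IsCh c → c.Nonempty → AcAt (Φ c) (c.card - 1)

omit [Fintype P] in
theorem exists_f {Δ : Set (Finset α)} {Φ : Finset P → Set (Finset α)} (h : Carrier Δ Φ) (n : ℕ) :
    ∃ f : Finset P → Finset α → ZMod 2, f ∅ = delta0 ∧ ∀ c : Finset P, c.card ≤ n → IsCh c →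
      Sup (Φ c) c.card (f c) ∧ bd (f c) = ∑ a ∈ c, f (c.erase a) := by
  classical
  induction n with
  | zero =>
    refine ⟨fun _ => delta0, rfl, ?_⟩
    intro c hc _
    have : c = ∅ := card_eq_zero.1 (by omega)
    subst this
    refine ⟨?_, by rw [bd_delta0]; simp⟩
    intro t ht
    have : t = ∅ := by by_contra hne; exact ht (by simp [delta0, hne])
    subst this
    exact ⟨h.emp _, rfl⟩
  | succ n ih =>
    obtain ⟨f, f0, hf⟩ := ih
    have key : ∀ c : Finset P, c.card = n + 1 ∧ IsCh c →
        ∃ w : Finset α → ZMod 2, Sup (Φ c) (n + 1) w ∧ bd w = ∑ a ∈ c, f (c.erase a) := by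
      rintro c ⟨hc, hch⟩
      have hne : c.Nonempty := card_pos.1 (by omega)
      have hac := h.ac c hch hne
      rw [hc, Nat.add_sub_cancel] at hac
      refine hac _ ?_ ?_
      · intro t ht
        rw [Finset.sum_apply] at ht
        obtain ⟨a, ha, hat⟩ := Finset.exists_ne_zero_of_sum_ne_zero ht
        have hcard : (c.erase a).card = n := by rw [card_erase_of_mem ha, hc]; rfl
        have h1 := (hf (c.erase a) hcard.le (hch.mono (erase_subset _ _))).1 t hat
        exact ⟨h.mono _ _ hch (erase_subset _ _) h1.1, by rw [h1.2, hcard]⟩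
      · rw [bd_sum]
        have : ∑ a ∈ c, bd (f (c.erase a)) = ∑ a ∈ c, ∑ b ∈ c.erase a, f ((c.erase a).erase b) := by
          refine sum_congr rfl fun a ha => ?_
          have hcard : (c.erase a).card = n := by rw [card_erase_of_mem ha, hc]; rfl
          exact (hf (c.erase a) hcard.le (hch.mono (erase_subset _ _))).2
        rw [this]
        exact sum_erase_erase (fun x => by funext t; exact zmod2_add_self _) c f
    choose w hw using key
    refine ⟨fun c => if hc : c.card = n + 1 ∧ IsCh c then w c hc else f c, ?_, ?_⟩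
    · have : ¬ ((∅ : Finset P).card = n + 1 ∧ IsCh (∅ : Finset P)) := by simp
      simp only [this, dif_neg, not_false_iff]
      exact f0
    · intro c hc hch
      have hers : ∀ a ∈ c, (if hc : (c.erase a).card = n + 1 ∧ IsCh (c.erase a) then w (c.erase a) hc
          else f (c.erase a)) = f (c.erase a) := by
        intro a ha
        rw [dif_neg]
        rintro ⟨h1, _⟩
        rw [card_erase_of_mem ha] at h1
        omega
      by_cases hcn : c.card = n + 1
      · have hh : c.card = n + 1 ∧ IsCh c := ⟨hcn, hch⟩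
        simp only [dif_pos hh]
        refine ⟨by rw [hcn]; exact (hw c hh).1, ?_⟩
        rw [(hw c hh).2]
        exact sum_congr rfl fun a ha => (hers a ha).symm
      · have hh : ¬ (c.card = n + 1 ∧ IsCh c) := fun h => hcn h.1
        simp only [dif_neg hh]
        have hf' := hf c (by omega) hch
        refine ⟨hf'.1, ?_⟩
        rw [hf'.2]
        exact sum_congr rfl fun a ha => (hers a ha).symm

/-- The chain map from `Δ` to the chains of `P`. -/
noncomputable def gg (p : Finset α → P) (S : Finset α) : Finset P → ZMod 2 :=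
  Finset.strongInduction (p := fun _ => Finset P → ZMod 2)
    (fun S ih => if S = ∅ then delta0 else
      ap (p S) (∑ e ∈ S.attach, ih (S.erase e.1) (erase_ssubset e.2))) S

omit [Fintype α] in
theorem gg_empty (p : Finset α → P) : gg p ∅ = delta0 := by
  rw [gg, Finset.strongInduction_eq]; simp

omit [Fintype α] in
theorem gg_eq (p : Finset α → P) {S : Finset α} (hS : S ≠ ∅) :
    gg p S = ap (p S) (∑ e ∈ S, gg p (S.erase e)) := by
  rw [gg, Finset.strongInduction_eq, if_neg hS]
  congr 1
  exact Finset.sum_attach S (fun e => gg p (S.erase e))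

variable {Δ : Set (Finset α)} {p : Finset α → P}

omit [Fintype α] in
theorem gg_supp (hd : ∀ t ∈ Δ, ∀ s ⊆ t, s ∈ Δ) :
    ∀ S ∈ Δ, ∀ c, gg p S c ≠ 0 → IsCh c ∧ c.card = S.card ∧ (∀ x ∈ c, x ≤ p S) ∧
      (S.Nonempty → ∃ e ∈ S, p {e} ∈ c ∧ ∀ x ∈ c, p {e} ≤ x) := by
  intro S
  induction S using Finset.strongInduction with
  | H S ih =>
    intro hS c hc
    by_cases hS0 : S = ∅
    · subst hS0
      rw [gg_empty] at hc
      have : c = ∅ := by by_contra hne; exact hc (by simp [delta0, hne])
      subst this
      refine ⟨fun x hx => absurd hx (notMem_empty _), rfl, fun x hx => absurd hx (notMem_empty _), ?_⟩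
      intro h; exact absurd h not_nonempty_empty
    · rw [gg_eq p hS0, ap] at hc
      by_cases hcond : p S ∈ c ∧ ∀ x ∈ c, x ≤ p S
      swap
      · rw [if_neg hcond] at hc; exact absurd rfl hc
      rw [if_pos hcond, Finset.sum_apply] at hc
      obtain ⟨e, he, hne⟩ := Finset.exists_ne_zero_of_sum_ne_zero hc
      obtain ⟨h1, h2, h3, h4⟩ := ih (S.erase e) (erase_ssubset he) (hd S hS _ (erase_subset _ _)) _ hne
      have hcc : c.card = S.card := by
        rw [card_erase_of_mem hcond.1, card_erase_of_mem he] at h2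
        have := card_pos.2 ⟨e, he⟩
        have := card_pos.2 ⟨_, hcond.1⟩
        omega
      refine ⟨?_, hcc, hcond.2, ?_⟩
      · intro x hx y hy
        by_cases hxp : x = p S
        · subst hxp; exact Or.inr (hcond.2 y hy)
        · by_cases hyp : y = p S
          · subst hyp; exact Or.inl (hcond.2 x hx)
          · exact h1 x (mem_erase.2 ⟨hxp, hx⟩) y (mem_erase.2 ⟨hyp, hy⟩)
      · intro _
        by_cases hSe : (S.erase e).Nonempty
        · obtain ⟨e', he', h5, h6⟩ := h4 hSe
          refine ⟨e', mem_of_mem_erase he', mem_of_mem_erase h5, ?_⟩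
          intro x hx
          by_cases hxp : x = p S
          · subst hxp; exact hcond.2 _ (mem_of_mem_erase h5)
          · exact h6 x (mem_erase.2 ⟨hxp, hx⟩)
        · rw [not_nonempty_iff_eq_empty] at hSe
          have hSs : S = {e} := by
            rw [← insert_erase he, hSe]; rfl
          have hce : c.erase (p S) = ∅ := by
            rw [← card_eq_zero, h2, hSe, card_empty]
          have hcs : c = {p S} := by
            rw [← insert_erase hcond.1, hce]; rfl
          refine ⟨e, he, ?_, ?_⟩
          · rw [← hSs]; exact hcond.1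
          · intro x hx
            rw [hcs, mem_singleton] at hx
            rw [hx, ← hSs]

omit [Fintype α] in
/-- Sharper support statement: every chain in `gg p S` is of the form `p S₀ ≤ p S₁ ≤ ...` with all `Sᵢ`
containing one common element. -/
theorem gg_supp' (hd : ∀ t ∈ Δ, ∀ s ⊆ t, s ∈ Δ) :
    ∀ S ∈ Δ, S.Nonempty → ∀ c, gg p S c ≠ 0 → ∃ e ∈ S, ∀ x ∈ c, ∃ S' ⊆ S, e ∈ S' ∧ p S' = x := by
  intro S
  induction S using Finset.strongInduction with
  | H S ih =>
    intro hS hSn c hc
    rw [gg_eq p hSn.ne_empty, ap] at hc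
    by_cases hcond : p S ∈ c ∧ ∀ x ∈ c, x ≤ p S
    swap
    · rw [if_neg hcond] at hc; exact absurd rfl hc
    rw [if_pos hcond, Finset.sum_apply] at hc
    obtain ⟨e, he, hne⟩ := Finset.exists_ne_zero_of_sum_ne_zero hc
    by_cases hSe : (S.erase e).Nonempty
    · obtain ⟨e', he', h5⟩ := ih (S.erase e) (erase_ssubset he) (hd S hS _ (erase_subset _ _)) hSe _ hne
      refine ⟨e', mem_of_mem_erase he', fun x hx => ?_⟩
      by_cases hxp : x = p S
      · exact ⟨S, Subset.refl _, mem_of_mem_erase he', hxp.symm⟩
      · obtain ⟨S', h6, h7, h8⟩ := h5 x (mem_erase.2 ⟨hxp, hx⟩)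
        exact ⟨S', h6.trans (erase_subset _ _), h7, h8⟩
    · rw [not_nonempty_iff_eq_empty] at hSe
      have h2 := (gg_supp hd (S.erase e) (hd S hS _ (erase_subset _ _)) _ hne).2.1
      have hce : c.erase (p S) = ∅ := by
        rw [← card_eq_zero, h2, hSe, card_empty]
      have hcs : c = {p S} := by
        rw [← insert_erase hcond.1, hce]; rfl
      refine ⟨e, he, fun x hx => ?_⟩
      rw [hcs, mem_singleton] at hx
      exact ⟨S, Subset.refl _, he, hx.symm⟩

omit [Fintype α] in
theorem bd_gg (hd : ∀ t ∈ Δ, ∀ s ⊆ t, s ∈ Δ) (hp : ∀ S T : Finset α, S ⊆ T → T ∈ Δ → p S ≤ p T) :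
    ∀ S ∈ Δ, bd (gg p S) = ∑ e ∈ S, gg p (S.erase e) := by
  intro S
  induction S using Finset.strongInduction with
  | H S ih =>
    intro hS
    by_cases hS0 : S = ∅
    · subst hS0
      rw [gg_empty, bd_delta0]; simp
    · rw [gg_eq p hS0, bd_ap]
      · have : bd (∑ e ∈ S, gg p (S.erase e)) = 0 := by
          rw [bd_sum]
          have h1 : ∑ e ∈ S, bd (gg p (S.erase e)) = ∑ e ∈ S, ∑ b ∈ S.erase e, gg p ((S.erase e).erase b) :=
            sum_congr rfl fun e he => ih (S.erase e) (erase_ssubset he) (hd S hS _ (erase_subset _ _))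
          rw [h1]
          exact sum_erase_erase (fun x => by funext t; exact zmod2_add_self _) S (gg p)
        rw [this, ap_zero, add_zero]
      · intro c hc x hx
        rw [Finset.sum_apply] at hc
        obtain ⟨e, he, hne⟩ := Finset.exists_ne_zero_of_sum_ne_zero hc
        exact (((gg_supp hd (S.erase e) (hd S hS _ (erase_subset _ _)) c hne).2.2.1) x hx).trans
          (hp _ _ (erase_subset _ _) hS)

open Matrix

open Classical in
/-- The Lefschetz contradiction, general form. The last hypothesis: a face `S` of `Φ c` cannot have an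
element `e` such that every member of the chain `c` is `p S'` for some `S' ⊆ S` with `e ∈ S'`. -/
theorem lefschetz' [OrderBot P] (hd : ∀ t ∈ Δ, ∀ s ⊆ t, s ∈ Δ)
    (hp : ∀ S T : Finset α, S ⊆ T → T ∈ Δ → p S ≤ p T)
    {Φ : Finset P → Set (Finset α)} (hΦ : Carrier Δ Φ)
    (hne : ∀ c : Finset P, IsCh c → c.Nonempty → ∀ S ∈ Φ c, S.card = c.card → ∀ e ∈ S,
      ¬ ∀ x ∈ c, ∃ S' ⊆ S, e ∈ S' ∧ p S' = x) : False := by
  obtain ⟨f, f0, hf⟩ := exists_f hΦ (Fintype.card P)
  have hfS : ∀ c, IsCh c → Sup (Φ c) c.card (f c) := fun c hc => (hf c (card_le_univ c) hc).1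
  have hfb : ∀ c, IsCh c → bd (f c) = ∑ a ∈ c, f (c.erase a) := fun c hc => (hf c (card_le_univ c) hc).2
  have hfΔ : ∀ c, IsCh c → ∀ S, f c S ≠ 0 → S ∈ Δ := fun c hc S h => hΦ.sub c (hfS c hc S h).1
  let D : Matrix (Finset P) (Finset P) (ZMod 2) := Matrix.of fun c c' =>
    if IsCh c then ∑ a ∈ c, (if c' = c.erase a then 1 else 0) else 0
  let T : Matrix (Finset P) (Finset P) (ZMod 2) := Matrix.of fun c c' =>
    if IsCh c ∧ ⊥ ∉ c ∧ c' = insert ⊥ c then 1 else 0
  let H : Matrix (Finset P) (Finset P) (ZMod 2) := Matrix.of fun c c' =>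
    if IsCh c then ∑ S, f c S * gg p S c' else 0
  let I : Matrix (Finset P) (Finset P) (ZMod 2) := Matrix.of fun c c' =>
    if IsCh c ∧ c' = c then 1 else 0
  have hDM : ∀ (M : Matrix (Finset P) (Finset P) (ZMod 2)) c c'', (D * M) c c'' =
      if IsCh c then ∑ a ∈ c, M (c.erase a) c'' else 0 := by
    intro M c c''
    rw [Matrix.mul_apply]
    by_cases hc : IsCh c
    · rw [if_pos hc]
      have : ∀ c', D c c' * M c' c'' = ∑ a ∈ c, (if c' = c.erase a then M c' c'' else 0) := by
        intro c'
        simp only [D, Matrix.of_apply, if_pos hc]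
        rw [sum_mul]
        refine sum_congr rfl fun a _ => ?_
        split_ifs <;> simp
      rw [sum_congr rfl fun c' _ => this c', sum_comm]
      refine sum_congr rfl fun a _ => ?_
      simp
    · rw [if_neg hc]
      exact sum_eq_zero fun c' _ => by simp [D, hc]
  have hIns : ∀ c : Finset P, IsCh c → IsCh (insert ⊥ c) := by
    intro c hc x hx y hy
    rcases mem_insert.1 hx with rfl | hx
    · exact Or.inl bot_le
    · rcases mem_insert.1 hy with rfl | hy
      · exact Or.inr bot_le
      · exact hc x hx y hy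
  have hTM : ∀ (M : Matrix (Finset P) (Finset P) (ZMod 2)) c c'', (T * M) c c'' =
      if IsCh c ∧ ⊥ ∉ c then M (insert ⊥ c) c'' else 0 := by
    intro M c c''
    rw [Matrix.mul_apply]
    by_cases hc : IsCh c ∧ ⊥ ∉ c
    · rw [if_pos hc, sum_eq_single (insert ⊥ c)]
      · simp [T, hc.1, hc.2]
      · intro c' _ hne'
        simp [T, hne']
      · intro h; exact absurd (mem_univ _) h
    · rw [if_neg hc]
      refine sum_eq_zero fun c' _ => ?_
      have : ¬ (IsCh c ∧ ⊥ ∉ c ∧ c' = insert ⊥ c) := fun h => hc ⟨h.1, h.2.1⟩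
      simp [T, this]
  have hDT : D * T + T * D = I := by
    ext c c''
    rw [Matrix.add_apply, hDM, hTM]
    by_cases hc : IsCh c
    · rw [if_pos hc]
      have h1 : ∀ a ∈ c, T (c.erase a) c'' = if ⊥ ∉ c.erase a ∧ c'' = insert ⊥ (c.erase a) then 1 else 0 := by
        intro a _
        simp only [T, Matrix.of_apply, hc.mono (erase_subset a c), true_and]
      rw [sum_congr rfl h1]
      by_cases hb : ⊥ ∈ c
      · rw [if_neg (fun h => h.2 hb), add_zero, sum_eq_single ⊥]
        · have : (⊥ : P) ∉ c.erase ⊥ := notMem_erase _ _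
          simp only [this, not_false_iff, true_and, insert_erase hb, I, Matrix.of_apply, hc]
        · intro a _ hab
          have : (⊥ : P) ∈ c.erase a := mem_erase.2 ⟨Ne.symm hab, hb⟩
          simp [this]
        · intro h; exact absurd hb h
      · rw [if_pos ⟨hc, hb⟩]
        have h2 : ∑ a ∈ c, (if ⊥ ∉ c.erase a ∧ c'' = insert ⊥ (c.erase a) then (1 : ZMod 2) else 0) =
            ∑ a ∈ c, (if c'' = insert ⊥ (c.erase a) then (1 : ZMod 2) else 0) := by
          refine sum_congr rfl fun a _ => ?_
          have : (⊥ : P) ∉ c.erase a := fun h => hb (mem_of_mem_erase h)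
          simp [this]
        have h3 : D (insert ⊥ c) c'' = (if c'' = c then 1 else 0) +
            ∑ a ∈ c, (if c'' = insert ⊥ (c.erase a) then (1 : ZMod 2) else 0) := by
          simp only [D, Matrix.of_apply, if_pos (hIns c hc)]
          rw [sum_insert hb, erase_insert hb]
          congr 1
          refine sum_congr rfl fun a ha => ?_
          have : (⊥ : P) ≠ a := by rintro rfl; exact hb ha
          rw [erase_insert_of_ne this]
        rw [h2, h3]
        have h4 : I c c'' = if c'' = c then 1 else 0 := by simp [I, hc]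
        rw [h4]
        set X := ∑ a ∈ c, (if c'' = insert ⊥ (c.erase a) then (1 : ZMod 2) else 0)
        calc X + ((if c'' = c then 1 else 0) + X) = (X + X) + (if c'' = c then 1 else 0) := by ring
          _ = _ := by rw [zmod2_add_self, zero_add]
    · have h5 : ¬ (IsCh c ∧ ⊥ ∉ c) := fun h => hc h.1
      have h6 : I c c'' = 0 := by simp [I, hc]
      rw [if_neg hc, if_neg h5, h6, add_zero]
  have hgK : ∀ c, IsCh c → ∀ S c', f c S * gg p S c' ≠ 0 → IsCh c' := by
    intro c hc S c' h
    have h1 : f c S ≠ 0 := fun h' => h (by rw [h', zero_mul])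
    have h2 : gg p S c' ≠ 0 := fun h' => h (by rw [h', mul_zero])
    exact (gg_supp hd S (hfΔ c hc S h1) c' h2).1
  have hHI : H * I = H := by
    ext c c''
    rw [Matrix.mul_apply, sum_eq_single c'']
    · by_cases hc'' : IsCh c''
      · simp [I, hc'']
      · have h1 : I c'' c'' = 0 := by simp [I, hc'']
        rw [h1, mul_zero]
        by_cases hc : IsCh c
        · simp only [H, Matrix.of_apply, if_pos hc]
          refine (sum_eq_zero fun S _ => ?_).symm
          by_contra hne'
          exact hc'' (hgK c hc S c'' hne')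
        · simp [H, hc]
    · intro c' _ hne'
      have : ¬ (IsCh c' ∧ c'' = c') := fun h => hne' h.2.symm
      simp [I, this]
    · intro h; exact absurd (mem_univ _) h
  have hHD : H * D = D * H := by
    ext c c''
    rw [hDM, Matrix.mul_apply]
    by_cases hc : IsCh c
    · rw [if_pos hc]
      -- left side
      have hL : ∀ c', H c c' * D c' c'' = ∑ S, f c S * (gg p S c' * D c' c'') := by
        intro c'
        simp only [H, Matrix.of_apply, if_pos hc]
        rw [sum_mul]
        exact sum_congr rfl fun S _ => by ring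
      rw [sum_congr rfl fun c' _ => hL c', sum_comm]
      have hL2 : ∀ S, ∑ c', f c S * (gg p S c' * D c' c'') = f c S * ∑ e ∈ S, gg p (S.erase e) c'' := by
        intro S
        by_cases hfs : f c S = 0
        · simp [hfs]
        · have hSΔ := hfΔ c hc S hfs
          rw [← mul_sum]
          congr 1
          have h7 : ∀ c', gg p S c' * D c' c'' = ∑ a ∈ c', (if c'' = c'.erase a then gg p S c' else 0) := by
            intro c'
            by_cases hg : gg p S c' = 0
            · rw [hg, zero_mul]
              exact (sum_eq_zero fun a _ => by simp).symm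
            · have hc' := (gg_supp hd S hSΔ c' hg).1
              simp only [D, Matrix.of_apply, if_pos hc']
              rw [mul_sum]
              refine sum_congr rfl fun a _ => ?_
              split_ifs <;> simp
          rw [sum_congr rfl fun c' _ => h7 c',
            swap_sum (fun c' d => if c'' = d then gg p S c' else 0)]
          rw [sum_eq_single c'']
          · have h8 := congrFun (bd_gg hd hp S hSΔ) c''
            rw [Finset.sum_apply] at h8
            rw [← h8, bd]
            simp
          · intro d _ hd'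
            exact sum_eq_zero fun a _ => by simp [Ne.symm hd']
          · intro h; exact absurd (mem_univ _) h
      rw [sum_congr rfl fun S _ => hL2 S]
      -- right side
      have hR : ∑ a ∈ c, H (c.erase a) c'' = ∑ S, bd (f c) S * gg p S c'' := by
        have h9 : ∀ a ∈ c, H (c.erase a) c'' = ∑ S, f (c.erase a) S * gg p S c'' := by
          intro a _
          simp only [H, Matrix.of_apply, if_pos (hc.mono (erase_subset a c))]
        rw [sum_congr rfl h9, sum_comm]
        refine sum_congr rfl fun S _ => ?_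
        rw [hfb c hc, Finset.sum_apply, sum_mul]
      rw [hR]
      have hL3 : ∀ S, f c S * ∑ e ∈ S, gg p (S.erase e) c'' = ∑ e ∈ S, f c S * gg p (S.erase e) c'' :=
        fun S => mul_sum _ _ _
      rw [sum_congr rfl fun S _ => hL3 S, swap_sum (fun S S' => f c S * gg p S' c'')]
      refine sum_congr rfl fun S _ => ?_
      rw [bd, sum_mul]
    · rw [if_neg hc]
      exact sum_eq_zero fun c' _ => by simp [H, hc]
  have htr0 : Matrix.trace H = 0 := by
    have h1 : Matrix.trace H = Matrix.trace (H * (D * T)) + Matrix.trace (H * (T * D)) := by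
      rw [← Matrix.trace_add, ← Matrix.mul_add, hDT, hHI]
    have h2 : Matrix.trace (H * (T * D)) = Matrix.trace (H * (D * T)) := by
      rw [← Matrix.mul_assoc, Matrix.trace_mul_comm, ← Matrix.mul_assoc, ← hHD, Matrix.mul_assoc]
    rw [h1, h2]
    exact zmod2_add_self _
  have htr1 : Matrix.trace H = 1 := by
    rw [Matrix.trace, sum_eq_single ∅]
    · have he : IsCh (∅ : Finset P) := fun x hx => absurd hx (notMem_empty _)
      simp only [Matrix.diag_apply, H, Matrix.of_apply, if_pos he]
      rw [sum_eq_single ∅]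
      · rw [f0, gg_empty]; simp [delta0]
      · intro S _ hS
        rw [f0]; simp [delta0, hS]
      · intro h; exact absurd (mem_univ _) h
    · intro c _ hc0
      simp only [Matrix.diag_apply, H, Matrix.of_apply]
      by_cases hc : IsCh c
      · rw [if_pos hc]
        refine sum_eq_zero fun S _ => ?_
        by_contra hne'
        have h1 : f c S ≠ 0 := fun h' => hne' (by rw [h', zero_mul])
        have h2 : gg p S c ≠ 0 := fun h' => hne' (by rw [h', mul_zero])
        have h3 := hfS c hc S h1
        have hcn : c.Nonempty := nonempty_iff_ne_empty.2 hc0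
        have hSn : S.Nonempty := card_pos.1 (by
          rw [h3.2]; exact card_pos.2 hcn)
        obtain ⟨e, he, h5⟩ := gg_supp' hd S (hΦ.sub c h3.1) hSn c h2
        exact hne c hc hcn S h3.1 h3.2 e he h5
      · rw [if_neg hc]
    · intro h; exact absurd (mem_univ _) h
  rw [htr0] at htr1
  exact zero_ne_one htr1

/-- The Lefschetz contradiction, minimum form. -/
theorem lefschetz [OrderBot P] (hd : ∀ t ∈ Δ, ∀ s ⊆ t, s ∈ Δ)
    (hp : ∀ S T : Finset α, S ⊆ T → T ∈ Δ → p S ≤ p T)
    {Φ : Finset P → Set (Finset α)} (hΦ : Carrier Δ Φ)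
    (hne : ∀ c, IsCh c → ∀ x ∈ c, (∀ y ∈ c, x ≤ y) → ∀ e, {e} ∈ Φ c →
      ¬ ∃ S' ∈ Δ, e ∈ S' ∧ p S' = x) : False := by
  refine lefschetz' hd hp hΦ ?_
  intro c hc hcn S hS _ e he h
  obtain ⟨x, hx⟩ := c.exists_minimal hcn
  have hmin : ∀ y ∈ c, x ≤ y := by
    intro y hy
    rcases hc x hx.1 y hy with h' | h'
    · exact h'
    · exact hx.2 hy h'
  obtain ⟨S', h1, h2, h3⟩ := h x hx.1
  exact hne c hc x hx.1 hmin e (hΦ.down c S hS _ (singleton_subset_iff.2 he))
    ⟨S', hd S (hΦ.sub c hS) S' h1, h2, h3⟩

end chains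

end TopHall
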